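import Pool.Agent.H.MP_0cad2f_co.helper11.Fin

/-!
A lower bound for the expected diameter of Gaussian-perturbed polytopes: already few constraints
(about the square root of `d / σ` of them) force an expected diameter of that order.
-/

set_option autoImplicit false

open MeasureTheory ProbabilityTheory

namespace Pool.Agent.Results.MP_0cad2f_co.DiameterLowerBound

/-- For `2 ≤ d`, `2 * d ≤ n` and `s := σ * √(d * (d + log n)) ≤ 1 / 64` some centres of norm at
most `1` give an expected edge-graph diameter at least `min n (d / √s) / 220`. -/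
theorem result (n d : ℕ) (hd : 2 ≤ d) (hn : 2 * d ≤ n) (σ : ℝ) (hσ : 0 < σ)
    (hs : σ * Real.sqrt (d * (d + Real.log n)) ≤ 1 / 64) :
    ∃ c : Fin n → Fin d → ℝ, (∀ i, ∑ j, (c i j) ^ 2 ≤ 1) ∧
      ENNReal.ofReal (1 / 220 * min (n : ℝ)
        (d / Real.sqrt (σ * Real.sqrt (d * (d + Real.log n))))) ≤
      ∫⁻ a : Fin n → Fin d → ℝ,
          ((SimpleGraph.fromRel
              (fun (u v : {x : Fin d → ℝ //
                  (∀ i, ∑ j, a i j * x j ≤ 1) ∧
                  Submodule.span ℝ (a '' {i | ∑ j, a i j * x j = 1}) = ⊤}) =>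
                Module.finrank ℝ
                  (Submodule.span ℝ
                    (a '' {i | ∑ j, a i j * u.1 j = 1 ∧ ∑ j, a i j * v.1 j = 1}))
                  = d - 1)).ediam : ENNReal)
        ∂(Measure.pi (fun i : Fin n =>
            Measure.pi (fun j : Fin d => gaussianReal (c i j) (Real.toNNReal (σ ^ 2))))) :=
  Pool.Agent.H.MP_0cad2f_co.helper11.main hd hn hσ hs

end Pool.Agent.Results.MP_0cad2f_co.DiameterLowerBound
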