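import Pool.Agent.H.MP_0cad2f_co.q3.Main

/-!
# The diameter of Gaussian-perturbed polytopes does not depend on the number of constraints

The expected diameter of the edge graph of a Gaussian-perturbed polyhedron is at most
`C (d / σ) ^ K * d ^ (log₂ d)`, whatever the number `n` of constraints is.
-/

set_option autoImplicit false

open MeasureTheory ProbabilityTheory

namespace Pool.Agent.Results.MP_0cad2f_co.QuasiPolyDiameter

/-- The vertices of the polyhedron `{x | ∀ i, ⟨a i, x⟩ ≤ 1}`: feasible points whose tight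
constraints span. -/
abbrev Vertex {n d : ℕ} (a : Fin n → Fin d → ℝ) : Type :=
  {x : Fin d → ℝ // (∀ i, ∑ j, a i j * x j ≤ 1) ∧
    Submodule.span ℝ (a '' {i | ∑ j, a i j * x j = 1}) = ⊤}

/-- The edge graph: two vertices are joined when their common tight constraints have
rank `d - 1`. -/
abbrev edgeGraph {n d : ℕ} (a : Fin n → Fin d → ℝ) : SimpleGraph (Vertex a) :=
  SimpleGraph.fromRel (fun u v : Vertex a =>
    Module.finrank ℝ (Submodule.span ℝ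
      (a '' {i | ∑ j, a i j * u.1 j = 1 ∧ ∑ j, a i j * v.1 j = 1})) = d - 1)

/-- The law of the perturbed constraints: independent Gaussian vectors around the centres. -/
noncomputable abbrev law {n d : ℕ} (c : Fin n → Fin d → ℝ) (σ : ℝ) :
    Measure (Fin n → Fin d → ℝ) :=
  Measure.pi (fun i : Fin n =>
    Measure.pi (fun j : Fin d => gaussianReal (c i j) (Real.toNNReal (σ ^ 2))))

/-- The expected diameter of the edge graph is at most `C (d / σ) ^ K * d ^ (log₂ d)` for all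
admissible `n`, `d`, `σ` and all centres. Hence, for every `A`, it is at most `C (d / σ) ^ K` if
`d ^ (log₂ d) ≤ (1 / σ) ^ A`, and at most `C (n d / σ) ^ K` if `d ^ (log₂ d) ≤ (n / σ) ^ A`, where
`C`, `K` depend only on `A`. -/
theorem result :
    (∃ C : ℝ, ∃ K : ℕ, ∀ n d : ℕ, 2 ≤ n → 1 ≤ d →
      ∀ σ : ℝ, 0 < σ → σ ≤ 1 / (6 * Real.sqrt ((d : ℝ) * Real.log (n : ℝ))) →
      ∀ c : Fin n → Fin d → ℝ, (∀ i, ∑ j, (c i j) ^ 2 ≤ 1) →
        ∫⁻ a, ((edgeGraph a).ediam : ENNReal) ∂(law c σ) ≤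
          ENNReal.ofReal (C * ((d : ℝ) / σ) ^ K * (d : ℝ) ^ Nat.log 2 d)) ∧
    (∀ A : ℕ, ∃ C : ℝ, ∃ K : ℕ, ∀ n d : ℕ, 2 ≤ n → 1 ≤ d →
      ∀ σ : ℝ, 0 < σ → σ ≤ 1 / (6 * Real.sqrt ((d : ℝ) * Real.log (n : ℝ))) →
      ∀ c : Fin n → Fin d → ℝ, (∀ i, ∑ j, (c i j) ^ 2 ≤ 1) →
        ((d : ℝ) ^ Nat.log 2 d ≤ (1 / σ) ^ A →
          ∫⁻ a, ((edgeGraph a).ediam : ENNReal) ∂(law c σ) ≤
            ENNReal.ofReal (C * ((d : ℝ) / σ) ^ K)) ∧
        ((d : ℝ) ^ Nat.log 2 d ≤ ((n : ℝ) / σ) ^ A →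
          ∫⁻ a, ((edgeGraph a).ediam : ENNReal) ∂(law c σ) ≤
            ENNReal.ofReal (C * ((n : ℝ) * (d : ℝ) / σ) ^ K))) := by
  obtain ⟨C, K, h⟩ := Pool.Agent.H.MP_0cad2f_co.q3.main
  refine ⟨⟨C, K, fun n d hn hd σ hσ hσ1 c hc => h n d hn hd σ hσ hσ1 c hc⟩, fun A =>
    ⟨|C|, K + A, fun n d hn hd σ hσ hσ1 c hc => ⟨fun hdA => (h n d hn hd σ hσ hσ1 c hc).trans
      (ENNReal.ofReal_le_ofReal ?_), fun hdA => (h n d hn hd σ hσ hσ1 c hc).trans
      (ENNReal.ofReal_le_ofReal ?_)⟩⟩⟩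
  · have hd1 : (1 : ℝ) ≤ d := by exact_mod_cast hd
    have hd0 : (0 : ℝ) < d := by linarith
    have hle : 1 / σ ≤ (d : ℝ) / σ := by gcongr
    calc C * ((d : ℝ) / σ) ^ K * (d : ℝ) ^ Nat.log 2 d
        ≤ |C| * ((d : ℝ) / σ) ^ K * (1 / σ) ^ A := by
          gcongr
          exact le_abs_self C
      _ ≤ |C| * ((d : ℝ) / σ) ^ K * ((d : ℝ) / σ) ^ A := by
          gcongr
      _ = |C| * ((d : ℝ) / σ) ^ (K + A) := by ring
  · have hd1 : (1 : ℝ) ≤ d := by exact_mod_cast hd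
    have hd0 : (0 : ℝ) < d := by linarith
    have hn1 : (1 : ℝ) ≤ n := by exact_mod_cast (by omega : 1 ≤ n)
    have hn0 : (0 : ℝ) < n := by linarith
    have hle : (n : ℝ) / σ ≤ (n : ℝ) * d / σ := by
      gcongr
      exact le_mul_of_one_le_right hn0.le hd1
    have hle2 : (d : ℝ) / σ ≤ (n : ℝ) * d / σ := by
      gcongr
      exact le_mul_of_one_le_left hd0.le hn1
    calc C * ((d : ℝ) / σ) ^ K * (d : ℝ) ^ Nat.log 2 d
        ≤ |C| * ((n : ℝ) * d / σ) ^ K * ((n : ℝ) / σ) ^ A := by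
          gcongr
          exact le_abs_self C
      _ ≤ |C| * ((n : ℝ) * d / σ) ^ K * ((n : ℝ) * d / σ) ^ A := by
          gcongr
      _ = |C| * ((n : ℝ) * d / σ) ^ (K + A) := by ring

end Pool.Agent.Results.MP_0cad2f_co.QuasiPolyDiameter
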