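import Pool.Agent.H.MP_0cad2f_co.helper47.FinalW

/-!
# Typical distances in Gaussian-perturbed polytopes

In the mean, all but a fraction `ε` of the vertices of the perturbed polyhedron lie in one ball of
the edge graph whose radius is polynomial in `d`, `1 / σ` and `1 / ε` and does not depend on the
number `n` of constraints. The same holds if the vertices are counted with arbitrary weights
depending on their sets of tight constraints.
-/

set_option autoImplicit false

open MeasureTheory ProbabilityTheory

namespace Pool.Agent.Results.MP_0cad2f_co.TypicalDistance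

/-- The vertices of the polyhedron `{x | ∀ i, ⟨a i, x⟩ ≤ 1}`: feasible points whose tight
constraints span. -/
abbrev Vertex {n d : ℕ} (a : Fin n → Fin d → ℝ) : Type :=
  {x : Fin d → ℝ // (∀ i, ∑ j, a i j * x j ≤ 1) ∧
    Submodule.span ℝ (a '' {i | ∑ j, a i j * x j = 1}) = ⊤}

/-- The edge graph: two vertices are joined when their common tight constraints have
rank `d - 1`. -/
abbrev edgeGraph {n d : ℕ} (a : Fin n → Fin d → ℝ) : SimpleGraph (Vertex a) :=
  SimpleGraph.fromRel (fun u v : Vertex a =>
    Module.finrank ℝ (Submodule.span ℝ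
      (a '' {i | ∑ j, a i j * u.1 j = 1 ∧ ∑ j, a i j * v.1 j = 1})) = d - 1)

/-- The set of tight constraints of a vertex. -/
abbrev tight {n d : ℕ} (a : Fin n → Fin d → ℝ) (v : Vertex a) : Set (Fin n) :=
  {i | ∑ j, a i j * v.1 j = 1}

/-- The law of the perturbed constraints: independent Gaussian vectors around the centres. -/
noncomputable abbrev law {n d : ℕ} (c : Fin n → Fin d → ℝ) (σ : ℝ) :
    Measure (Fin n → Fin d → ℝ) :=
  Measure.pi (fun i : Fin n =>
    Measure.pi (fun j : Fin d => gaussianReal (c i j) (Real.toNNReal (σ ^ 2))))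

/-- There are absolute constants `C`, `K` such that for all admissible `n`, `d`, `σ`, all centres
and all `0 < ε ≤ 1`, with `D = C (d / (σ ε)) ^ K`:

* the expectation of the largest number of vertices in a ball of radius `D` of the edge graph is
  at least `(1 - ε)` times the expected number of vertices;
* for all weights `W ≥ 0` on the sets of constraints, the expectation of the largest total weight
  `∑ W (tight v)` of a ball of radius `D` is at least `(1 - ε)` times the expected total weight of
  all vertices, minus `ε n ^ (-10 d)` times the sum of the weights of all sets of `d`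
  constraints. -/
theorem result : ∃ (C : ℝ) (K : ℕ), ∀ n d : ℕ, 2 ≤ n → 1 ≤ d → ∀ σ ε : ℝ, 0 < σ →
    σ ≤ 1 / (6 * Real.sqrt ((d : ℝ) * Real.log (n : ℝ))) → 0 < ε → ε ≤ 1 →
    ∀ c : Fin n → Fin d → ℝ, (∀ i, ∑ j, (c i j) ^ 2 ≤ 1) →
      ENNReal.ofReal (1 - ε) *
          ∫⁻ a, (((Set.univ : Set (Vertex a)).encard : ℕ∞) : ENNReal) ∂(law c σ) ≤
        ∫⁻ a, ⨆ v₀ : Vertex a,
          (({v : Vertex a | (((edgeGraph a).edist v₀ v : ℕ∞) : ENNReal) ≤
            ENNReal.ofReal (C * (d / (σ * ε)) ^ K)}.encard : ℕ∞) : ENNReal) ∂(law c σ) ∧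
      ∀ W : Set (Fin n) → ENNReal,
        ENNReal.ofReal (1 - ε) * ∫⁻ a, ∑' v : Vertex a, W (tight a v) ∂(law c σ) ≤
          ∫⁻ a, (⨆ v₀ : Vertex a,
            ∑' v : {v : Vertex a // (((edgeGraph a).edist v₀ v : ℕ∞) : ENNReal) ≤
              ENNReal.ofReal (C * (d / (σ * ε)) ^ K)}, W (tight a v.1)) ∂(law c σ) +
          ENNReal.ofReal (ε / (n : ℝ) ^ (10 * d)) *
            ∑ I ∈ (Finset.univ : Finset (Fin n)).powersetCard d, W I :=
  Pool.Agent.H.MP_0cad2f_co.helper47.main

end Pool.Agent.Results.MP_0cad2f_co.TypicalDistance
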