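import Pool.Agent.H.MP_0cad2f_co.NT.Final
import Pool.Agent.H.MP_0cad2f_co.NT.Rare

/-!
# Distances between well conditioned vertices of Gaussian-perturbed polytopes

The distance of two vertices `u`, `v` in the edge graph of the perturbed polyhedron is at most
`Z * Γ ^ k`, where `Γ` bounds the condition numbers of the bases of `u` and `v`, `k` is absolute and
the random variable `Z` (the same for all pairs of vertices) has polynomial expectation. In
particular the well conditioned vertices (condition number at most `(n d / σ) ^ C`) have polynomial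
expected diameter. In the mean almost all vertices are well conditioned (theorem `rare`).
-/

set_option autoImplicit false

open MeasureTheory ProbabilityTheory

namespace Pool.Agent.Results.MP_0cad2f_co.WellConditioned

/-- The vertices of the polyhedron `{x | ∀ i, ⟨a i, x⟩ ≤ 1}`: feasible points whose tight
constraints span. -/
abbrev Vertex {n d : ℕ} (a : Fin n → Fin d → ℝ) : Type :=
  {x : Fin d → ℝ // (∀ i, ∑ j, a i j * x j ≤ 1) ∧
    Submodule.span ℝ (a '' {i | ∑ j, a i j * x j = 1}) = ⊤}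

/-- The edge graph: two vertices are joined when their common tight constraints have
rank `d - 1`. -/
abbrev edgeGraph {n d : ℕ} (a : Fin n → Fin d → ℝ) : SimpleGraph (Vertex a) :=
  SimpleGraph.fromRel (fun u v : Vertex a =>
    Module.finrank ℝ (Submodule.span ℝ
      (a '' {i | ∑ j, a i j * u.1 j = 1 ∧ ∑ j, a i j * v.1 j = 1})) = d - 1)

/-- The vertex `v` is `Γ`-conditioned: `‖x‖ ≤ Γ ‖(⟨a i, x⟩)_{i ∈ B}‖` for all `x`, for some set `B`
of `d` constraints which are tight at `v` (Euclidean norms; that is, the inverse of the matrix of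
these constraints has spectral norm at most `Γ`). -/
def Conditioned {n d : ℕ} (a : Fin n → Fin d → ℝ) (Γ : ℝ) (v : Vertex a) : Prop :=
  ∃ B : Finset (Fin n), B.card = d ∧ (∀ i ∈ B, ∑ j, a i j * v.1 j = 1) ∧
    ∀ x : Fin d → ℝ, ∑ j, x j ^ 2 ≤ Γ ^ 2 * ∑ i ∈ B, (∑ j, a i j * x j) ^ 2

/-- The law of the perturbed constraints: independent Gaussian vectors around the centres. -/
noncomputable abbrev law {n d : ℕ} (c : Fin n → Fin d → ℝ) (σ : ℝ) :
    Measure (Fin n → Fin d → ℝ) :=
  Measure.pi (fun i : Fin n =>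
    Measure.pi (fun j : Fin d => gaussianReal (c i j) (Real.toNNReal (σ ^ 2))))

/-- With `X = n d / σ`: for every `A` the expected number of vertices which are not
`X ^ (5 A + 22)`-conditioned is at most `X ^ (-A)` times the expected number of vertices. -/
theorem rare (A : ℕ) {n d : ℕ} (hn : 2 ≤ n) (hd : 1 ≤ d) {σ : ℝ} (hσ : 0 < σ)
    (hσ1 : σ ≤ 1 / (6 * Real.sqrt ((d : ℝ) * Real.log (n : ℝ))))
    (c : Fin n → Fin d → ℝ) (hc : ∀ i, ∑ j, (c i j) ^ 2 ≤ 1) :
    ∫⁻ a, (({v : Vertex a | ¬ Conditioned a ((n * d / σ) ^ (5 * A + 22)) v}.encard : ℕ∞) :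
        ENNReal) ∂(law c σ) ≤
      ENNReal.ofReal (((n * d / σ) ^ A)⁻¹) *
        ∫⁻ a, (((Set.univ : Set (Vertex a)).encard : ℕ∞) : ENNReal) ∂(law c σ) :=
  Pool.Agent.H.MP_0cad2f_co.NT.rare A hn hd hσ hσ1 c hc

/-- There are absolute constants `K`, `k` such that for all admissible `n`, `d`, `σ` and all
centres the expectation of the supremum of `dist u v / Γ ^ k`, over all `Γ ≥ 1` and all pairs `u`,
`v` of `Γ`-conditioned vertices, is at most `K (n d / σ) ^ k`. -/
theorem result : ∃ (K : ℝ) (k : ℕ), ∀ n d : ℕ, 2 ≤ n → 1 ≤ d → ∀ σ : ℝ, 0 < σ →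
    σ ≤ 1 / (6 * Real.sqrt ((d : ℝ) * Real.log (n : ℝ))) →
    ∀ c : Fin n → Fin d → ℝ, (∀ i, ∑ j, (c i j) ^ 2 ≤ 1) →
      ∫⁻ a, ⨆ (Γ : ℝ) (_ : 1 ≤ Γ) (u : Vertex a) (_ : Conditioned a Γ u) (v : Vertex a)
          (_ : Conditioned a Γ v),
          (((edgeGraph a).edist u v : ℕ∞) : ENNReal) / ENNReal.ofReal (Γ ^ k) ∂(law c σ) ≤
        ENNReal.ofReal (K * (n * d / σ) ^ k) :=
  Pool.Agent.H.MP_0cad2f_co.NT.main

end Pool.Agent.Results.MP_0cad2f_co.WellConditioned
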